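import Pool.Agent.H.MP_b28609_co.Gap.Stmt

/-!
# MP_b28609_co, gap theorem, side strip: interface between tables and geometry

The rows are scanned cell by cell.  A profile is a function `p` of the cells `0, ..., 10` (the columns
`1, ..., 11`) with values `0` (no guard, done), `1` (guard), `2` (no guard, not yet dominated by the row
above or its own row).  In the layer `j` the cells `k < j` belong to the new row, the others to the old row.
-/

set_option autoImplicit false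

namespace PatGap.Side

/-- Weight of a guard in the cell `j`. -/
def cw (j : ℕ) : ℤ := if j ≤ 8 then 5 else if j = 9 then 4 else 1

/-- Admissible profiles of the layer `j`. -/
def Ok (j : ℕ) (p : ℕ → ℕ) : Prop :=
  (∀ k, k ≤ 10 → p k ≤ 2) ∧ p 10 ≤ 1 ∧
    ∀ k, k ≤ 9 → k + 1 ≠ j → ¬ (p k = 1 ∧ p (k + 1) = 2) ∧ ¬ (p k = 2 ∧ p (k + 1) = 1)

/-- The cell `j` of the new row gets no guard. -/
def up0 (j : ℕ) (p : ℕ → ℕ) : ℕ → ℕ :=
  fun k => if k = j then (if j = 10 ∨ p j = 1 ∨ (1 ≤ j ∧ p (j - 1) = 1) then 0 else 2) else p k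

/-- The cell `j` of the new row gets a guard. -/
def up1 (j : ℕ) (p : ℕ → ℕ) : ℕ → ℕ :=
  fun k => if k = j then 1 else if k + 1 = j ∧ p k = 2 then 0 else p k

/-- `T` is a potential for the scan, layer `11` is layer `0` plus `11`. -/
structure TabProp (T : ℕ → (ℕ → ℕ) → ℤ) : Prop where
  ext : ∀ (j : ℕ) (p q : ℕ → ℕ), (∀ k, k ≤ 10 → p k = q k) → T j p = T j q
  bd : ∀ p : ℕ → ℕ, Ok 0 p → 0 ≤ T 0 p ∧ T 0 p ≤ 22
  s0 : ∀ (j : ℕ) (p : ℕ → ℕ), j ≤ 10 → Ok j p → (j ≤ 9 → p j ≠ 2) → T (j + 1) (up0 j p) ≤ T j p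
  s1 : ∀ (j : ℕ) (p : ℕ → ℕ), j ≤ 10 → Ok j p → T (j + 1) (up1 j p) ≤ T j p + cw j
  wrap : ∀ p : ℕ → ℕ, T 11 p = T 0 p + 11

/-- Table part. -/
def TabStmt : Prop := ∃ T, TabProp T

/-- Geometric part. -/
def GeoStmt : Prop := TabStmt → SideStmt

end PatGap.Side
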