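import Pool.Agent.H.MP_b28609_co.Gap.Side.Tabs
import Pool.Agent.H.MP_b28609_co.Gap.Side.Intf

/-!
# MP_b28609_co, gap theorem, side strip: the table part
-/

set_option autoImplicit false

namespace PatGap.Side

theorem beqd (a b : ℕ) : Nat.beq a b = decide (a = b) := by
  rw [Bool.eq_iff_iff]
  simp [Nat.beq_eq]

theorem bled (a b : ℕ) : Nat.ble a b = decide (a ≤ b) := by
  rw [Bool.eq_iff_iff]
  simp [Nat.ble_eq]

theorem code_congr (p q : ℕ → ℕ) (n : ℕ) (h : ∀ k, k < n → q k = p k) : code q n = code p n := by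
  induction n with
  | zero => rfl
  | succ n ih => rw [code_succ, code_succ, ih fun k hk => h k (by omega), h n (by omega)]

theorem code_ne (p q : ℕ → ℕ) (j n : ℕ) (h : ∀ k, k < n → k ≠ j → q k = p k) (hj : j < n) :
    code q n + p j * 3 ^ j = code p n + q j * 3 ^ j := by
  induction n with
  | zero => omega
  | succ n ih =>
    rw [code_succ, code_succ]
    rcases Nat.lt_or_ge j n with hl | hl
    · have h1 := ih (fun k hk => h k (by omega)) hl
      rw [h n (by omega) (by omega)]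
      omega
    · have : j = n := by omega
      subst this
      rw [code_congr p q j fun k hk => h k (by omega) (by omega)]
      omega

theorem tr_use (j A B x Y su sd c : ℕ) (h : (x, Y, su, sd, c) ∈ trs j) (hc : c ≤ 100)
    (hchk : chk j A B = true) (hB : hz B = true) (p q : ℕ → ℕ) (hp : Ok j p) (hx : p j = x)
    (hY : 1 ≤ j → (Y >>> p (j - 1)) % 2 = 1) (hq : ∀ k, k < 11 → q k ≤ 2)
    (e : code q 11 + sd = code p 11 + su) : ln B (code q 11) ≤ ln A (code p 11) + c := by
  have h1 := (List.all_eq_true.mp hchk) _ h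
  refine ckU_sound A B _ su sd c hc h1 (mk_ln_le _ 11) (code p 11) (code q 11)
    (code_lt p 11 fun k hk => hp.1 k (by omega)) (mk_code _ p 11 ?_)
    (hz_sound B hB _ (code_lt q 11 hq)) e
  intro k hk
  refine ⟨hp.1 k (by omega), ?_⟩
  show sp j x Y k (p k) = true
  unfold sp
  rw [beqd, beqd, beqd, beqd, beqd, bled]
  by_cases h2 : k = j
  · subst h2
    simp [hx]
  · by_cases h3 : k + 1 = j
    · have h4 := hY (by omega)
      rw [← h3, show k + 1 - 1 = k by omega] at h4
      simp [h2, h3, h4]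
    · by_cases h5 : k = 10
      · subst h5
        have := hp.2.1
        simp [h2, h3, this]
      · simp [h2, h3, h5]

theorem up0_le (j : ℕ) (p : ℕ → ℕ) (hp : Ok j p) : ∀ k, k < 11 → up0 j p k ≤ 2 := by
  intro k hk
  have := hp.1 k (by omega)
  unfold up0
  split_ifs <;> omega

theorem up1_le (j : ℕ) (p : ℕ → ℕ) (hp : Ok j p) : ∀ k, k < 11 → up1 j p k ≤ 2 := by
  intro k hk
  have := hp.1 k (by omega)
  unfold up1
  split_ifs <;> omega

theorem up0_code (j : ℕ) (hj : j ≤ 10) (p : ℕ → ℕ) :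
    code (up0 j p) 11 + p j * 3 ^ j =
      code p 11 + (if j = 10 ∨ p j = 1 ∨ (1 ≤ j ∧ p (j - 1) = 1) then 0 else 2) * 3 ^ j := by
  have h := code_ne p (up0 j p) j 11 (fun k _ hk => by
    unfold up0
    rw [if_neg hk]) (by omega)
  rw [h]
  unfold up0
  rw [if_pos rfl]

theorem up1_code (j : ℕ) (hj : j ≤ 10) (p : ℕ → ℕ) (hy : 1 ≤ j → p (j - 1) ≠ 2) :
    code (up1 j p) 11 + p j * 3 ^ j = code p 11 + 3 ^ j := by
  have h := code_ne p (up1 j p) j 11 (fun k _ hk => by
    unfold up1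
    rw [if_neg hk, if_neg]
    rintro ⟨h1, h2⟩
    subst h1
    exact hy (by omega) (by rwa [show k + 1 - 1 = k by omega])) (by omega)
  rw [h]
  unfold up1
  rw [if_pos rfl, one_mul]

theorem up1_code2 (j : ℕ) (hj : j ≤ 10) (hj1 : 1 ≤ j) (p : ℕ → ℕ) (hy : p (j - 1) = 2) :
    code (up1 j p) 11 + p j * 3 ^ j + 2 * 3 ^ (j - 1) = code p 11 + 3 ^ j := by
  have h := code_ne p (fun k => if k = j then 1 else p k) j 11 (fun k _ hk => by
    rw [if_neg hk]) (by omega)
  have h2 := code_ne (fun k => if k = j then 1 else p k) (up1 j p) (j - 1) 11 (fun k _ hk => by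
    unfold up1
    by_cases h3 : k = j
    · rw [if_pos h3, if_pos h3]
    · rw [if_neg h3, if_neg h3, if_neg (by omega)]) (by omega)
  simp only [if_true] at h
  rw [if_neg (by omega), hy] at h2
  have h4 : up1 j p (j - 1) = 0 := by
    unfold up1
    rw [if_neg (by omega), if_pos ⟨by omega, hy⟩]
  rw [h4] at h2
  omega

/-- Cost of a guard in the cell `j`. -/
def cn (j : ℕ) : ℕ := if j ≤ 8 then 5 else if j = 9 then 4 else 1

theorem trs_zero : trs 0 =
    [(1, 7, 0, 1, 0), (0, 7, 2, 0, 0), (0, 7, 1, 0, 5), (1, 7, 0, 0, 5), (2, 7, 0, 1, 5)] := rfl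

theorem trs_ten : trs 10 =
    [(1, 7, 0, 3 ^ 10, 0), (0, 7, 0, 0, 0), (0, 3, 3 ^ 10, 0, 1), (1, 3, 0, 0, 1),
      (0, 4, 3 ^ 10, 2 * 3 ^ 9, 1), (1, 4, 0, 2 * 3 ^ 9, 1)] := rfl

theorem trs_mid (j : ℕ) (h0 : ¬ j = 0) (h1 : j ≤ 10) (h10 : ¬ j = 10) : trs j =
    [(1, 7, 0, 3 ^ j, 0), (0, 2, 0, 0, 0), (0, 5, 2 * 3 ^ j, 0, 0),
      (0, 3, 3 ^ j, 0, cn j), (1, 3, 0, 0, cn j), (2, 3, 0, 3 ^ j, cn j),
      (0, 4, 3 ^ j, 2 * 3 ^ (j - 1), cn j), (1, 4, 0, 2 * 3 ^ (j - 1), cn j),
      (2, 4, 0, 3 ^ j + 2 * 3 ^ (j - 1), cn j)] := by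
  have e : cn j = cond (Nat.beq j 9) 4 5 := by
    rw [beqd]
    unfold cn
    by_cases h9 : j = 9
    · subst h9
      rfl
    · rw [if_pos (by omega), decide_eq_false h9]
      rfl
  rw [e]
  unfold trs
  rw [beqd j 0, beqd j 10, decide_eq_false h0, decide_eq_false h10]
  rfl

theorem st0 (j A B : ℕ) (hj : j ≤ 10) (hchk : chk j A B = true) (hB : hz B = true) (p : ℕ → ℕ)
    (hp : Ok j p) (h2 : j ≤ 9 → p j ≠ 2) : ln B (code (up0 j p) 11) ≤ ln A (code p 11) + 0 := by
  have hc := up0_code j hj p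
  have hx2 := hp.1 j hj
  have hy2 := hp.1 (j - 1) (by omega)
  have hx : p j = 0 ∨ p j = 1 := by
    rcases Nat.lt_or_ge j 10 with h | h
    · have := h2 (by omega)
      omega
    · have e : j = 10 := by omega
      have := hp.2.1
      rw [e]
      omega
  have hY7 : 1 ≤ j → (7 >>> p (j - 1)) % 2 = 1 := by
    intro _
    have h3 : p (j - 1) = 0 ∨ p (j - 1) = 1 ∨ p (j - 1) = 2 := by omega
    rcases h3 with h3 | h3 | h3 <;> rw [h3] <;> rfl
  have hle := up0_le j p hp
  rcases hx with hx | hx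
  · rw [hx, zero_mul, add_zero] at hc
    by_cases h10 : j = 10
    · rw [if_pos (Or.inl h10)] at hc
      have hm : (0, 7, 0, 0, 0) ∈ trs j := by
        rw [h10, trs_ten]
        simp only [List.mem_cons, true_or, or_true]
      exact tr_use j A B 0 7 0 0 0 hm (by omega) hchk hB p _ hp hx hY7 hle (by omega)
    · by_cases hj0 : j = 0
      · rw [if_neg (by omega), hj0] at hc
        have hm : (0, 7, 2, 0, 0) ∈ trs j := by
          rw [hj0, trs_zero]
          simp only [List.mem_cons, true_or, or_true]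
        refine tr_use j A B 0 7 2 0 0 hm (by omega) hchk hB p _ hp hx hY7 hle ?_
        rw [hj0]
        omega
      · have hmid := trs_mid j hj0 hj h10
        by_cases hy : p (j - 1) = 1
        · rw [if_pos (Or.inr (Or.inr ⟨by omega, hy⟩))] at hc
          have hm : (0, 2, 0, 0, 0) ∈ trs j := by
            rw [hmid]
            simp only [List.mem_cons, true_or, or_true]
          exact tr_use j A B 0 2 0 0 0 hm (by omega) hchk hB p _ hp hx
            (fun _ => by rw [hy]; rfl) hle (by omega)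
        · rw [if_neg (by omega)] at hc
          have hm : (0, 5, 2 * 3 ^ j, 0, 0) ∈ trs j := by
            rw [hmid]
            simp only [List.mem_cons, true_or, or_true]
          refine tr_use j A B 0 5 (2 * 3 ^ j) 0 0 hm (by omega) hchk hB p _ hp hx
            (fun _ => ?_) hle (by omega)
          have h3 : p (j - 1) = 0 ∨ p (j - 1) = 2 := by omega
          rcases h3 with h3 | h3 <;> rw [h3] <;> rfl
  · rw [hx, if_pos (Or.inr (Or.inl rfl)), one_mul, zero_mul] at hc
    have hm : (1, 7, 0, 3 ^ j, 0) ∈ trs j := by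
      by_cases h0 : j = 0
      · rw [h0, trs_zero]
        exact List.mem_cons_self
      · by_cases h10 : j = 10
        · rw [h10, trs_ten]
          exact List.mem_cons_self
        · rw [trs_mid j h0 hj h10]
          exact List.mem_cons_self
    exact tr_use j A B 1 7 0 (3 ^ j) 0 hm (by omega) hchk hB p _ hp hx hY7 hle hc

/-- Membership of the transitions with a guard. -/
theorem mem1 (j : ℕ) (hj : j ≤ 10) (h0 : ¬ j = 0) :
    ((0, 3, 3 ^ j, 0, cn j) ∈ trs j ∧ (1, 3, 0, 0, cn j) ∈ trs j ∧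
      (0, 4, 3 ^ j, 2 * 3 ^ (j - 1), cn j) ∈ trs j ∧ (1, 4, 0, 2 * 3 ^ (j - 1), cn j) ∈ trs j) ∧
      (¬ j = 10 → (2, 3, 0, 3 ^ j, cn j) ∈ trs j ∧ (2, 4, 0, 3 ^ j + 2 * 3 ^ (j - 1), cn j) ∈ trs j) := by
  by_cases h10 : j = 10
  · refine ⟨?_, fun h => absurd h10 h⟩
    rw [h10, trs_ten, show cn 10 = 1 from rfl, show 10 - 1 = 9 from rfl]
    refine ⟨?_, ?_, ?_, ?_⟩ <;> simp only [List.mem_cons, true_or, or_true]
  · rw [trs_mid j h0 hj h10]
    refine ⟨⟨?_, ?_, ?_, ?_⟩, fun _ => ⟨?_, ?_⟩⟩ <;> simp only [List.mem_cons, true_or, or_true]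

theorem st1 (j A B : ℕ) (hj : j ≤ 10) (hchk : chk j A B = true) (hB : hz B = true) (p : ℕ → ℕ)
    (hp : Ok j p) : ln B (code (up1 j p) 11) ≤ ln A (code p 11) + cn j := by
  have hx2 := hp.1 j hj
  have hy2 := hp.1 (j - 1) (by omega)
  have hle := up1_le j p hp
  have hcn : cn j ≤ 100 := by
    unfold cn
    split_ifs <;> omega
  have hx10 : p j = 2 → ¬ j = 10 := by
    rintro h rfl
    have := hp.2.1
    omega
  have hx3 : p j = 0 ∨ p j = 1 ∨ p j = 2 := by omega
  by_cases hj0 : j = 0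
  · have hc := up1_code j hj p (by omega)
    have hz : cn j = 5 := by rw [hj0]; rfl
    rw [hz]
    have hY : ∀ Y, 1 ≤ j → (Y >>> p (j - 1)) % 2 = 1 := fun _ h => by omega
    have e1 : 3 ^ j = 1 := by rw [hj0, pow_zero]
    rw [e1] at hc
    rcases hx3 with hx | hx | hx
    · rw [hx] at hc
      have hm : (0, 7, 1, 0, 5) ∈ trs j := by
        rw [hj0, trs_zero]
        simp only [List.mem_cons, true_or, or_true]
      exact tr_use j A B 0 7 1 0 5 hm (by omega) hchk hB p _ hp hx (hY 7) hle (by omega)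
    · rw [hx] at hc
      have hm : (1, 7, 0, 0, 5) ∈ trs j := by
        rw [hj0, trs_zero]
        simp only [List.mem_cons, true_or, or_true]
      exact tr_use j A B 1 7 0 0 5 hm (by omega) hchk hB p _ hp hx (hY 7) hle (by omega)
    · rw [hx] at hc
      have hm : (2, 7, 0, 1, 5) ∈ trs j := by
        rw [hj0, trs_zero]
        simp only [List.mem_cons, true_or, or_true]
      exact tr_use j A B 2 7 0 1 5 hm (by omega) hchk hB p _ hp hx (hY 7) hle (by omega)
  · obtain ⟨⟨m1, m2, m3, m4⟩, m5⟩ := mem1 j hj hj0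
    by_cases hy : p (j - 1) = 2
    · have hc := up1_code2 j hj (by omega) p hy
      have hY : 1 ≤ j → (4 >>> p (j - 1)) % 2 = 1 := fun _ => by
        rw [hy]
        rfl
      rcases hx3 with hx | hx | hx
      · rw [hx] at hc
        exact tr_use j A B 0 4 (3 ^ j) (2 * 3 ^ (j - 1)) (cn j) m3 hcn hchk hB p _ hp hx hY hle
          (by omega)
      · rw [hx] at hc
        exact tr_use j A B 1 4 0 (2 * 3 ^ (j - 1)) (cn j) m4 hcn hchk hB p _ hp hx hY hle (by omega)
      · rw [hx] at hc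
        exact tr_use j A B 2 4 0 (3 ^ j + 2 * 3 ^ (j - 1)) (cn j) (m5 (hx10 hx)).2 hcn hchk hB p _ hp
          hx hY hle (by omega)
    · have hc := up1_code j hj p (fun _ => hy)
      have hY : 1 ≤ j → (3 >>> p (j - 1)) % 2 = 1 := fun _ => by
        have h3 : p (j - 1) = 0 ∨ p (j - 1) = 1 := by omega
        rcases h3 with h3 | h3 <;> rw [h3] <;> rfl
      rcases hx3 with hx | hx | hx
      · rw [hx] at hc
        exact tr_use j A B 0 3 (3 ^ j) 0 (cn j) m1 hcn hchk hB p _ hp hx hY hle (by omega)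
      · rw [hx] at hc
        exact tr_use j A B 1 3 0 0 (cn j) m2 hcn hchk hB p _ hp hx hY hle (by omega)
      · rw [hx] at hc
        exact tr_use j A B 2 3 0 (3 ^ j) (cn j) (m5 (hx10 hx)).1 hcn hchk hB p _ hp hx hY hle
          (by omega)

theorem ln11 (i : ℕ) (hi : i < 3 ^ 11) : ln tab11 i = ln tab0 i + 11 := by
  have hm : ∀ k, k < 3 ^ 11 → ln (11 * Ua) k = 11 := by
    intro k hk
    rw [ln_mul 11 k Ua fun l hl => by rw [Ua_ln l (by omega)]; decide, Ua_ln k hk]
  unfold tab11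
  rw [ln_add i _ _ fun k hk => by
    have := hz_sound tab0 h0 k (by omega)
    rw [hm k (by omega)]
    omega, hm i hi]

/-- The tables. -/
def tabF (j : ℕ) : ℕ :=
  if j = 0 then tab0 else
  if j = 1 then tab1 else
  if j = 2 then tab2 else
  if j = 3 then tab3 else
  if j = 4 then tab4 else
  if j = 5 then tab5 else
  if j = 6 then tab6 else
  if j = 7 then tab7 else
  if j = 8 then tab8 else
  if j = 9 then tab9 else
  tab10

theorem tabF_0 : tabF 0 = tab0 := by
  unfold tabF
  rw [if_pos rfl]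

theorem tabF_1 : tabF 1 = tab1 := by
  unfold tabF
  rw [if_neg (by omega), if_pos rfl]

theorem tabF_2 : tabF 2 = tab2 := by
  unfold tabF
  rw [if_neg (by omega), if_neg (by omega), if_pos rfl]

theorem tabF_3 : tabF 3 = tab3 := by
  unfold tabF
  rw [if_neg (by omega), if_neg (by omega), if_neg (by omega), if_pos rfl]

theorem tabF_4 : tabF 4 = tab4 := by
  unfold tabF
  rw [if_neg (by omega), if_neg (by omega), if_neg (by omega), if_neg (by omega), if_pos rfl]

theorem tabF_5 : tabF 5 = tab5 := by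
  unfold tabF
  rw [if_neg (by omega), if_neg (by omega), if_neg (by omega), if_neg (by omega), if_neg (by omega), if_pos rfl]

theorem tabF_6 : tabF 6 = tab6 := by
  unfold tabF
  rw [if_neg (by omega), if_neg (by omega), if_neg (by omega), if_neg (by omega), if_neg (by omega), if_neg (by omega), if_pos rfl]

theorem tabF_7 : tabF 7 = tab7 := by
  unfold tabF
  rw [if_neg (by omega), if_neg (by omega), if_neg (by omega), if_neg (by omega), if_neg (by omega), if_neg (by omega), if_neg (by omega), if_pos rfl]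

theorem tabF_8 : tabF 8 = tab8 := by
  unfold tabF
  rw [if_neg (by omega), if_neg (by omega), if_neg (by omega), if_neg (by omega), if_neg (by omega), if_neg (by omega), if_neg (by omega), if_neg (by omega), if_pos rfl]

theorem tabF_9 : tabF 9 = tab9 := by
  unfold tabF
  rw [if_neg (by omega), if_neg (by omega), if_neg (by omega), if_neg (by omega), if_neg (by omega), if_neg (by omega), if_neg (by omega), if_neg (by omega), if_neg (by omega), if_pos rfl]

theorem tabF_10 : tabF 10 = tab10 := by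
  unfold tabF
  rw [if_neg (by omega), if_neg (by omega), if_neg (by omega), if_neg (by omega), if_neg (by omega), if_neg (by omega), if_neg (by omega), if_neg (by omega), if_neg (by omega), if_neg (by omega)]

theorem tabF_ok (j : ℕ) (hj : j ≤ 9) : chk j (tabF j) (tabF (j + 1)) = true ∧ hz (tabF (j + 1)) = true := by
  have h : j = 0 ∨ j = 1 ∨ j = 2 ∨ j = 3 ∨ j = 4 ∨ j = 5 ∨ j = 6 ∨ j = 7 ∨ j = 8 ∨ j = 9 := by omega
  rcases h with rfl | rfl | rfl | rfl | rfl | rfl | rfl | rfl | rfl | rfl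
  · rw [tabF_0, show 0 + 1 = 1 from rfl, tabF_1]
    exact ⟨c0, h1⟩
  · rw [tabF_1, show 1 + 1 = 2 from rfl, tabF_2]
    exact ⟨c1, h2⟩
  · rw [tabF_2, show 2 + 1 = 3 from rfl, tabF_3]
    exact ⟨c2, h3⟩
  · rw [tabF_3, show 3 + 1 = 4 from rfl, tabF_4]
    exact ⟨c3, h4⟩
  · rw [tabF_4, show 4 + 1 = 5 from rfl, tabF_5]
    exact ⟨c4, h5⟩
  · rw [tabF_5, show 5 + 1 = 6 from rfl, tabF_6]
    exact ⟨c5, h6⟩
  · rw [tabF_6, show 6 + 1 = 7 from rfl, tabF_7]
    exact ⟨c6, h7⟩
  · rw [tabF_7, show 7 + 1 = 8 from rfl, tabF_8]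
    exact ⟨c7, h8⟩
  · rw [tabF_8, show 8 + 1 = 9 from rfl, tabF_9]
    exact ⟨c8, h9⟩
  · rw [tabF_9, show 9 + 1 = 10 from rfl, tabF_10]
    exact ⟨c9, h10⟩

/-- The potential. -/
noncomputable def T (j : ℕ) (p : ℕ → ℕ) : ℤ :=
  if j = 11 then (ln tab0 (code p 11) : ℤ) + 11 else (ln (tabF j) (code p 11) : ℤ)

theorem T_lt (j : ℕ) (hj : j ≤ 10) (p : ℕ → ℕ) : T j p = (ln (tabF j) (code p 11) : ℤ) := by
  unfold T
  rw [if_neg (by omega)]

theorem T_11 (p : ℕ → ℕ) : T 11 p = (ln tab0 (code p 11) : ℤ) + 11 := by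
  unfold T
  rw [if_pos rfl]

theorem cw_cn (j : ℕ) : cw j = (cn j : ℤ) := by
  unfold cw cn
  split_ifs <;> rfl

theorem tabProp : TabProp T where
  ext := by
    intro j p q h
    unfold T
    rw [code_congr q p 11 fun k hk => h k (by omega)]
  bd := by
    intro p hp
    rw [T_lt 0 (by omega)]
    have h := ckU_sound 0 tab0 (mk sq 11) 0 0 22 (by omega) b0 (mk_ln_le _ 11) (code p 11) (code p 11)
      (code_lt p 11 fun k hk => hp.1 k (by omega))
      (mk_code _ p 11 fun k hk => ⟨hp.1 k (by omega), by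
        unfold sq
        rw [beqd, bled]
        by_cases h5 : k = 10
        · subst h5
          have := hp.2.1
          simp [this]
        · simp [h5]⟩)
      (hz_sound tab0 h0 _ (code_lt p 11 fun k hk => hp.1 k (by omega))) rfl
    have hz : ln 0 (code p 11) = 0 := by simp [ln]
    rw [hz] at h
    rw [tabF_0]
    omega
  s0 := by
    intro j p hj hp h2
    rcases Nat.lt_or_ge j 10 with h | h
    · have hk := tabF_ok j (by omega)
      rw [T_lt j hj, T_lt (j + 1) (by omega)]
      have := st0 j _ _ hj hk.1 hk.2 p hp h2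
      omega
    · have : j = 10 := by omega
      subst this
      have h3 := st0 10 tab10 tab11 hj c10 h11 p hp h2
      rw [ln11 _ (code_lt _ 11 (up0_le 10 p hp))] at h3
      rw [T_lt 10 hj, T_11, tabF_10]
      omega
  s1 := by
    intro j p hj hp
    rw [cw_cn]
    rcases Nat.lt_or_ge j 10 with h | h
    · have hk := tabF_ok j (by omega)
      rw [T_lt j hj, T_lt (j + 1) (by omega)]
      have := st1 j _ _ hj hk.1 hk.2 p hp
      omega
    · have : j = 10 := by omega
      subst this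
      have h3 := st1 10 tab10 tab11 hj c10 h11 p hp
      rw [ln11 _ (code_lt _ 11 (up1_le 10 p hp))] at h3
      rw [T_lt 10 hj, T_11, tabF_10]
      omega
  wrap := by
    intro p
    rw [T_11, T_lt 0 (by omega), tabF_0]

theorem tab : TabStmt := ⟨T, tabProp⟩

end PatGap.Side
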