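import Pool.Agent.H.MP_b28609_co.Gap.Side.Lane
import Pool.Agent.H.MP_b28609_co.Gap.Side.Data

/-!
# MP_b28609_co, gap theorem, side strip: check of a step
-/

set_option autoImplicit false

namespace PatGap.Side

/-- Ones in all bytes. -/
def Ua : ℕ := mk (fun _ _ => true) 11

/-- All bytes are at most 127. -/
def hz (X : ℕ) : Bool := Nat.beq (X &&& (128 * Ua)) 0

theorem Ua_ln (i : ℕ) (hi : i < 3 ^ 11) : ln Ua i = 1 := mk_all 11 i hi

theorem hz_sound (X : ℕ) (h : hz X = true) (i : ℕ) (hi : i < 3 ^ 11) : ln X i ≤ 127 := by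
  have h1 : X &&& (128 * Ua) = 0 := Nat.eq_of_beq_eq_true h
  have h2 := congrArg (fun z => ln z i) h1
  simp only [ln_and] at h2
  rw [ln_mul 128 i Ua (fun k hk => by rw [Ua_ln k (by omega)]; decide), Ua_ln i hi] at h2
  apply and128 _ (ln_lt X i)
  rw [show (128 : ℕ) * 1 = 128 from rfl] at h2
  rw [h2]
  simp [ln]

/-- On the bytes given by `U`, the byte of `B` shifted by `sp - sm` is at most the byte of `A` plus `c`. -/
def ckU (A B U sp sm c : ℕ) : Bool :=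
  Nat.ble (((B <<< (8 * sm)) >>> (8 * sp)) &&& (127 * U)) ((A &&& (127 * U)) + c * U) &&
    hz (((A &&& (127 * U)) + c * U) - (((B <<< (8 * sm)) >>> (8 * sp)) &&& (127 * U)))

theorem ckU_sound (A B U sp sm c : ℕ) (hc : c ≤ 100) (h : ckU A B U sp sm c = true)
    (hU : ∀ k, ln U k ≤ 1) (i i' : ℕ) (hi : i < 3 ^ 11) (hUi : ln U i = 1) (hB : ln B i' ≤ 127)
    (e : i' + sm = i + sp) : ln B i' ≤ ln A i + c := by
  unfold ckU at h
  rw [Bool.and_eq_true] at h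
  obtain ⟨h1, h2⟩ := h
  have h1' := Nat.le_of_ble_eq_true h1
  have hM : ∀ k, ln (127 * U) k = 127 * ln U k := fun k =>
    ln_mul 127 k U fun l _ => by have := hU l; omega
  have hC : ∀ k, ln (c * U) k = c * ln U k := fun k =>
    ln_mul c k U fun l _ => by
      have := hU l
      have := Nat.mul_le_mul_left c this
      omega
  have hX : ∀ Z k, ln (Z &&& (127 * U)) k ≤ 127 := by
    intro Z k
    rw [ln_and, hM]
    have h3 : ln Z k &&& (127 * ln U k) ≤ 127 * ln U k := Nat.and_le_right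
    have := hU k
    omega
  have hCl : ∀ k, ln (c * U) k ≤ 100 := by
    intro k
    rw [hC]
    have := Nat.mul_le_mul hc (hU k)
    omega
  set B' := ((B <<< (8 * sm)) >>> (8 * sp)) &&& (127 * U) with hB'
  set A' := (A &&& (127 * U)) + c * U with hA'
  have hBl : ∀ k, ln B' k ≤ 127 := fun k => hX _ k
  have e1 : ln A' i = ln (A &&& (127 * U)) i + ln (c * U) i :=
    ln_add i _ _ fun k _ => by
      have := hX A k
      have := hCl k
      omega
  have e2 : ln (B' + (A' - B')) i = ln B' i + ln (A' - B') i :=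
    ln_add i _ _ fun k hk => by
      have := hBl k
      have := hz_sound _ h2 k (by omega)
      omega
  rw [Nat.add_sub_cancel' h1'] at e2
  have e3 : ln B' i = ln B i' := by
    rw [hB', ln_and, ln_shift B sp sm i i' e, hM, hUi]
    exact and127 _ hB
  have e4 : ln (A &&& (127 * U)) i ≤ ln A i := by
    rw [ln_and]
    exact Nat.and_le_left
  rw [hC, hUi] at e1
  omega

/-- Digit sets: digit `j` is `x`, digit `j - 1` is in `Y` (bits), digit `10` is at most `1`. -/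
def sp (j x Y : ℕ) (t v : ℕ) : Bool :=
  cond (Nat.beq t j) (Nat.beq v x)
    (cond (Nat.beq (t + 1) j) (Nat.beq ((Y >>> v) % 2) 1) (cond (Nat.beq t 10) (Nat.ble v 1) true))

/-- The transitions in the layer `j`: `x`, `Y`, shift up, shift down, cost. -/
def trs (j : ℕ) : List (ℕ × ℕ × ℕ × ℕ × ℕ) :=
  cond (Nat.beq j 0)
    [(1, 7, 0, 1, 0), (0, 7, 2, 0, 0), (0, 7, 1, 0, 5), (1, 7, 0, 0, 5), (2, 7, 0, 1, 5)]
    (cond (Nat.beq j 10)
      [(1, 7, 0, 3 ^ 10, 0), (0, 7, 0, 0, 0),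
        (0, 3, 3 ^ 10, 0, 1), (1, 3, 0, 0, 1),
        (0, 4, 3 ^ 10, 2 * 3 ^ 9, 1), (1, 4, 0, 2 * 3 ^ 9, 1)]
      [(1, 7, 0, 3 ^ j, 0), (0, 2, 0, 0, 0), (0, 5, 2 * 3 ^ j, 0, 0),
        (0, 3, 3 ^ j, 0, cond (Nat.beq j 9) 4 5), (1, 3, 0, 0, cond (Nat.beq j 9) 4 5),
        (2, 3, 0, 3 ^ j, cond (Nat.beq j 9) 4 5),
        (0, 4, 3 ^ j, 2 * 3 ^ (j - 1), cond (Nat.beq j 9) 4 5), (1, 4, 0, 2 * 3 ^ (j - 1), cond (Nat.beq j 9) 4 5),
        (2, 4, 0, 3 ^ j + 2 * 3 ^ (j - 1), cond (Nat.beq j 9) 4 5)])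

/-- Check of all transitions from `A` to `B`. -/
def chk (j A B : ℕ) : Bool :=
  (trs j).all fun t => ckU A B (mk (sp j t.1 t.2.1) 11) t.2.2.1 t.2.2.2.1 t.2.2.2.2

/-- Minimum, byte by byte. -/
def mn (X Y : ℕ) : ℕ :=
  (fun M : ℕ => (fun F : ℕ => (Y &&& F) ||| (X &&& (F ^^^ (127 * Ua)))) (M - (M >>> 7)))
    (((X ||| (128 * Ua)) - Y) &&& (128 * Ua))

/-- Contribution of a transition. -/
def ctr (A U sp sm c : ℕ) : ℕ :=
  (((((A &&& (127 * U)) + c * U) <<< (8 * sp)) >>> (8 * sm))) + 33 * (Ua - ((U <<< (8 * sp)) >>> (8 * sm)))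

/-- The next table. -/
def nx (j A : ℕ) : ℕ :=
  (trs j).foldr (fun t B => mn (ctr A (mk (sp j t.1 t.2.1) 11) t.2.2.1 t.2.2.2.1 t.2.2.2.2) B) (33 * Ua)

end PatGap.Side
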