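import Pool.Agent.H.MP_b28609_co.Gap.Side.Intf

/-!
# MP_b28609_co, gap theorem, side strip: geometric part
-/

set_option autoImplicit false

namespace PatGap.Side

open Classical in
/-- Profile of the row `i`. -/
noncomputable def st (d : ℤ → ℤ → ℤ) (i : ℤ) (k : ℕ) : ℕ :=
  if d i (k + 1) = 1 then 1 else
    if k ≤ 9 ∧ d i k ≠ 1 ∧ d i (k + 2) ≠ 1 ∧ d (i - 1) (k + 1) ≠ 1 then 2 else 0

open Classical in
/-- Profile of the new row `i` after the cells below `j`. -/
noncomputable def nw (d : ℤ → ℤ → ℤ) (i : ℤ) (j k : ℕ) : ℕ :=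
  if d i (k + 1) = 1 then 1 else
    if k ≤ 9 ∧ d i k ≠ 1 ∧ (k + 1 < j → d i (k + 2) ≠ 1) ∧ d (i - 1) (k + 1) ≠ 1 then 2 else 0

/-- Mixed profile. -/
noncomputable def pf (d : ℤ → ℤ → ℤ) (i : ℤ) (j k : ℕ) : ℕ :=
  if k < j then nw d i j k else st d (i - 1) k

theorem st_one (d : ℤ → ℤ → ℤ) (i : ℤ) (k : ℕ) : st d i k = 1 ↔ d i (k + 1) = 1 := by
  unfold st
  split_ifs <;> simp_all

theorem st_two (d : ℤ → ℤ → ℤ) (i : ℤ) (k : ℕ) : st d i k = 2 ↔ d i (k + 1) ≠ 1 ∧
    (k ≤ 9 ∧ d i k ≠ 1 ∧ d i (k + 2) ≠ 1 ∧ d (i - 1) (k + 1) ≠ 1) := by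
  unfold st
  by_cases h1 : d i (k + 1) = 1
  · simp [h1]
  · by_cases h2 : k ≤ 9 ∧ d i k ≠ 1 ∧ d i (k + 2) ≠ 1 ∧ d (i - 1) (k + 1) ≠ 1
    · rw [if_neg h1, if_pos h2]
      exact ⟨fun _ => ⟨h1, h2⟩, fun _ => rfl⟩
    · rw [if_neg h1, if_neg h2]
      constructor
      · intro h
        omega
      · intro h
        exact absurd h.2 h2

theorem nw_one (d : ℤ → ℤ → ℤ) (i : ℤ) (j k : ℕ) : nw d i j k = 1 ↔ d i (k + 1) = 1 := by
  unfold nw
  split_ifs <;> simp_all

theorem nw_two (d : ℤ → ℤ → ℤ) (i : ℤ) (j k : ℕ) : nw d i j k = 2 ↔ d i (k + 1) ≠ 1 ∧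
    (k ≤ 9 ∧ d i k ≠ 1 ∧ (k + 1 < j → d i (k + 2) ≠ 1) ∧ d (i - 1) (k + 1) ≠ 1) := by
  unfold nw
  by_cases h1 : d i (k + 1) = 1
  · simp [h1]
  · by_cases h2 : k ≤ 9 ∧ d i k ≠ 1 ∧ (k + 1 < j → d i (k + 2) ≠ 1) ∧ d (i - 1) (k + 1) ≠ 1
    · rw [if_neg h1, if_pos h2]
      exact ⟨fun _ => ⟨h1, h2⟩, fun _ => rfl⟩
    · rw [if_neg h1, if_neg h2]
      constructor
      · intro h
        omega
      · intro h
        exact absurd h.2 h2

theorem st_le (d : ℤ → ℤ → ℤ) (i : ℤ) (k : ℕ) : st d i k ≤ 2 := by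
  unfold st
  split_ifs <;> omega

theorem nw_le (d : ℤ → ℤ → ℤ) (i : ℤ) (j k : ℕ) : nw d i j k ≤ 2 := by
  unfold nw
  split_ifs <;> omega

/-- A number at most 2 is known from its tests for 1 and 2. -/
theorem eq_of_tests {x y : ℕ} (hx : x ≤ 2) (hy : y ≤ 2) (h1 : x = 1 ↔ y = 1)
    (h2 : x = 2 ↔ y = 2) : x = y := by
  omega

theorem ok_pf (d : ℤ → ℤ → ℤ) (i : ℤ) (j : ℕ) : Ok j (pf d i j) := by
  refine ⟨?_, ?_, ?_⟩
  · intro k _
    unfold pf
    split_ifs
    · exact nw_le _ _ _ _
    · exact st_le _ _ _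
  · unfold pf
    split_ifs
    · have h := nw_le d i j 10
      have h2 : nw d i j 10 ≠ 2 := by
        rw [Ne, nw_two]
        rintro ⟨-, h, -⟩
        omega
      omega
    · have h := st_le d (i - 1) 10
      have h2 : st d (i - 1) 10 ≠ 2 := by
        rw [Ne, st_two]
        rintro ⟨-, h, -⟩
        omega
      omega
  · intro k hk hkj
    have e1 : ((k + 1 : ℕ) : ℤ) = (k : ℤ) + 1 := by push_cast; ring
    have e2 : ((k : ℤ) + 1 + 1) = (k : ℤ) + 2 := by ring
    unfold pf
    by_cases c : k < j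
    · have c2 : k + 1 < j := by omega
      rw [if_pos c, if_pos c2, nw_one, nw_one, nw_two, nw_two, e1, e2]
      constructor
      · rintro ⟨h, -, -, h', -⟩
        exact h' h
      · rintro ⟨⟨-, -, -, h, -⟩, h'⟩
        exact h c2 h'
    · have c2 : ¬ k + 1 < j := by omega
      rw [if_neg c, if_neg c2, st_one, st_one, st_two, st_two, e1, e2]
      constructor
      · rintro ⟨h, -, -, h', -⟩
        exact h' h
      · rintro ⟨⟨-, -, -, h, -⟩, h'⟩
        exact h h'

theorem pf_up0 (d : ℤ → ℤ → ℤ) (hz : ∀ i j, j ≤ 0 → d i j = 0) (i : ℤ) (j : ℕ)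
    (h : d i (j + 1) ≠ 1) (k : ℕ) (hk : k ≤ 10) :
    pf d i (j + 1) k = up0 j (pf d i j) k := by
  unfold up0
  by_cases hkj : k = j
  · subst hkj
    rw [if_pos rfl]
    have e0 : pf d i (k + 1) k = nw d i (k + 1) k := by
      unfold pf
      rw [if_pos (by omega)]
    have e1 : pf d i k k = st d (i - 1) k := by
      unfold pf
      rw [if_neg (by omega)]
    rw [e0, e1]
    have e2 : (1 ≤ k ∧ pf d i k (k - 1) = 1) ↔ d i k = 1 := by
      constructor
      · rintro ⟨h1, h2⟩
        unfold pf at h2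
        rw [if_pos (by omega), nw_one] at h2
        rwa [Nat.cast_sub h1, Nat.cast_one, sub_add_cancel] at h2
      · intro h2
        have h1 : 1 ≤ k := by
          by_contra hcon
          have : k = 0 := by omega
          subst this
          rw [hz i _ (by simp)] at h2
          omega
        refine ⟨h1, ?_⟩
        unfold pf
        rw [if_pos (by omega), nw_one, Nat.cast_sub h1, Nat.cast_one, sub_add_cancel]
        exact h2
    have e3 : (k = 10 ∨ st d (i - 1) k = 1 ∨ (1 ≤ k ∧ pf d i k (k - 1) = 1)) ↔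
        (k = 10 ∨ d (i - 1) (k + 1) = 1 ∨ d i k = 1) := by
      rw [e2, st_one]
    by_cases hc : k = 10 ∨ d (i - 1) (k + 1) = 1 ∨ d i k = 1
    · rw [if_pos (e3.2 hc)]
      have n1 : nw d i (k + 1) k ≠ 1 := by rwa [Ne, nw_one]
      have n2 : nw d i (k + 1) k ≠ 2 := by
        rw [Ne, nw_two]
        rintro ⟨-, h1, h2, -, h3⟩
        rcases hc with hc | hc | hc
        · omega
        · exact h3 hc
        · exact h2 hc
      have := nw_le d i (k + 1) k
      omega
    · rw [if_neg (fun h' => hc (e3.1 h')), nw_two]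
      push Not at hc
      exact ⟨h, by omega, hc.2.2, fun h' => absurd h' (by omega), hc.2.1⟩
  · rw [if_neg hkj]
    unfold pf
    by_cases c : k < j
    · rw [if_pos (by omega), if_pos c]
      refine eq_of_tests (nw_le _ _ _ _) (nw_le _ _ _ _) (by rw [nw_one, nw_one]) ?_
      rw [nw_two, nw_two]
      constructor
      · rintro ⟨h1, h2, h3, h4, h5⟩
        exact ⟨h1, h2, h3, fun h' => h4 (by omega), h5⟩
      · rintro ⟨h1, h2, h3, h4, h5⟩
        refine ⟨h1, h2, h3, ?_, h5⟩
        intro h'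
        by_cases c2 : k + 1 < j
        · exact h4 c2
        · have c3 : j = k + 1 := by omega
          subst c3
          have : ((k : ℤ) + 2) = ((k + 1 : ℕ) : ℤ) + 1 := by push_cast; ring
          rw [this]
          exact h
    · rw [if_neg (by omega), if_neg c]

theorem pf_up1 (d : ℤ → ℤ → ℤ) (i : ℤ) (j : ℕ)
    (h : d i (j + 1) = 1) (k : ℕ) :
    pf d i (j + 1) k = up1 j (pf d i j) k := by
  unfold up1
  by_cases hkj : k = j
  · subst hkj
    rw [if_pos rfl]
    unfold pf
    rw [if_pos (by omega), nw_one]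
    exact h
  · rw [if_neg hkj]
    by_cases c : k < j
    · have p1 : pf d i (j + 1) k = nw d i (j + 1) k := by
        unfold pf
        rw [if_pos (by omega)]
      have p2 : pf d i j k = nw d i j k := by
        unfold pf
        rw [if_pos c]
      rw [p1, p2]
      by_cases c3 : k + 1 = j ∧ nw d i j k = 2
      · rw [if_pos c3]
        obtain ⟨c4, c5⟩ := c3
        rw [nw_two] at c5
        have n1 : nw d i (j + 1) k ≠ 1 := by
          rw [Ne, nw_one]
          exact c5.1
        have n2 : nw d i (j + 1) k ≠ 2 := by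
          rw [Ne, nw_two]
          rintro ⟨-, -, -, h4, -⟩
          apply h4 (by omega)
          have : ((k : ℤ) + 2) = (j : ℤ) + 1 := by
            rw [← c4]
            push_cast
            ring
          rw [this]
          exact h
        have := nw_le d i (j + 1) k
        omega
      · rw [if_neg c3]
        refine eq_of_tests (nw_le _ _ _ _) (nw_le _ _ _ _) (by rw [nw_one, nw_one]) ?_
        constructor
        · intro h2
          rw [nw_two] at h2 ⊢
          obtain ⟨h1, h2, h3, h4, h5⟩ := h2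
          exact ⟨h1, h2, h3, fun h' => h4 (by omega), h5⟩
        · intro h2
          have c4 : k + 1 < j := by
            by_contra hcon
            exact c3 ⟨by omega, h2⟩
          rw [nw_two] at h2 ⊢
          obtain ⟨h1, h2, h3, h4, h5⟩ := h2
          exact ⟨h1, h2, h3, fun _ => h4 c4, h5⟩
    · have p1 : pf d i (j + 1) k = st d (i - 1) k := by
        unfold pf
        rw [if_neg (by omega)]
      have p2 : pf d i j k = st d (i - 1) k := by
        unfold pf
        rw [if_neg c]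
      rw [p1, p2, if_neg]
      rintro ⟨h1, -⟩
      omega

theorem pf_zero (d : ℤ → ℤ → ℤ) (i : ℤ) (k : ℕ) : pf d i 0 k = st d (i - 1) k := by
  unfold pf
  rw [if_neg (by omega)]

theorem pf_last (d : ℤ → ℤ → ℤ) (i : ℤ) (k : ℕ) (hk : k ≤ 10) : pf d i 11 k = st d i k := by
  unfold pf
  rw [if_pos (by omega)]
  refine eq_of_tests (nw_le _ _ _ _) (st_le _ _ _) (by rw [nw_one, st_one]) ?_
  rw [nw_two, st_two]
  constructor
  · rintro ⟨h1, h2, h3, h4, h5⟩
    exact ⟨h1, h2, h3, h4 (by omega), h5⟩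
  · rintro ⟨h1, h2, h3, h4, h5⟩
    exact ⟨h1, h2, h3, fun _ => h4, h5⟩

theorem cwid_eq (d : ℤ → ℤ → ℤ) (i : ℤ) :
    cwid d 10 i = ∑ j ∈ Finset.range 11, cw j * d i (j + 1) := by
  have h : (Finset.Icc (1 : ℤ) (10 - 1)) = {1, 2, 3, 4, 5, 6, 7, 8, 9} := by decide
  unfold cwid cw
  rw [h]
  simp [Finset.sum_range_succ]
  ring

theorem geo : GeoStmt := by
  rintro ⟨T, hT⟩
  refine ⟨fun d i => T 0 (st d i), ?_⟩
  intro d hb hz
  refine ⟨?_, ?_⟩
  · intro i
    have h := hT.bd (pf d (i + 1) 0) (ok_pf d (i + 1) 0)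
    have e : T 0 (pf d (i + 1) 0) = T 0 (st d i) := by
      apply hT.ext
      intro k _
      rw [pf_zero]
      congr 1
      ring
    rw [e] at h
    exact h
  · intro i hdom
    have step : ∀ j : ℕ, j ≤ 10 → T (j + 1) (pf d i (j + 1)) ≤
        T j (pf d i j) + cw j * d i (j + 1) := by
      intro j hj
      rcases hb i (j + 1) with h0 | h1
      · rw [h0, mul_zero, add_zero]
        have hne : d i (j + 1) ≠ 1 := by omega
        have e : T (j + 1) (pf d i (j + 1)) = T (j + 1) (up0 j (pf d i j)) :=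
          hT.ext _ _ _ (fun k hk => pf_up0 d hz i j hne k hk)
        rw [e]
        refine hT.s0 j _ hj (ok_pf d i j) ?_
        intro hj9 h2
        unfold pf at h2
        rw [if_neg (by omega), st_two] at h2
        obtain ⟨h3, -, h4, h5, h6⟩ := h2
        have ha := hdom (j + 1) (by omega) (by omega)
        unfold a at ha
        have e1 : d (i - 1) (j + 1) = 0 := (hb _ _).resolve_right h3
        have e2 : d (i - 1) j = 0 := (hb _ _).resolve_right h4
        have e3 : d (i - 1) (j + 2) = 0 := (hb _ _).resolve_right h5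
        have e4 : d (i - 1 - 1) (j + 1) = 0 := (hb _ _).resolve_right h6
        have e5 : (i - 1 + 1) = i := by ring
        have e6 : ((j : ℤ) + 1 - 1) = j := by ring
        have e7 : ((j : ℤ) + 1 + 1) = j + 2 := by ring
        rw [e5, e6, e7, e1, e2, e3, e4, h0] at ha
        omega
      · rw [h1, mul_one]
        have e : T (j + 1) (pf d i (j + 1)) = T (j + 1) (up1 j (pf d i j)) :=
          hT.ext _ _ _ (fun k _ => pf_up1 d i j h1 k)
        rw [e]
        exact hT.s1 j _ hj (ok_pf d i j)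
    have chain : ∀ n : ℕ, n ≤ 11 → T n (pf d i n) ≤
        T 0 (pf d i 0) + ∑ j ∈ Finset.range n, cw j * d i (j + 1) := by
      intro n
      induction n with
      | zero => intro _; simp
      | succ n ih =>
        intro hn
        rw [Finset.sum_range_succ]
        have h1 := ih (by omega)
        have h2 := step n (by omega)
        linarith
    have h := chain 11 le_rfl
    have e1 : T 11 (pf d i 11) = T 0 (st d i) + 11 := by
      rw [hT.wrap]
      congr 1
      exact hT.ext _ _ _ (fun k hk => pf_last d i k hk)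
    have e2 : T 0 (pf d i 0) = T 0 (st d (i - 1)) :=
      hT.ext _ _ _ (fun k _ => pf_zero d i k)
    rw [e1, e2, ← cwid_eq] at h
    unfold sg
    linarith

end PatGap.Side
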