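import Mathlib

/-!
# MP_b28609_co, gap theorem, side strip: vectors of bytes in a natural number
-/

set_option autoImplicit false

namespace PatGap.Side

/-- Byte `i` of `X`. -/
def ln (X i : ℕ) : ℕ := X / 2 ^ (8 * i) % 256

theorem ln_lt (X i : ℕ) : ln X i < 256 := Nat.mod_lt _ (by decide)

theorem ln_zero (X : ℕ) : ln X 0 = X % 256 := by simp [ln]

theorem ln_succ (X i : ℕ) : ln X (i + 1) = ln (X / 256) i := by
  unfold ln
  rw [Nat.div_div_eq_div_mul, show (256 : ℕ) = 2 ^ 8 from rfl, ← pow_add,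
    show 8 + 8 * i = 8 * (i + 1) by ring]

theorem ln_add (i : ℕ) : ∀ X Y : ℕ, (∀ k, k ≤ i → ln X k + ln Y k < 256) →
    ln (X + Y) i = ln X i + ln Y i := by
  induction i with
  | zero =>
    intro X Y h
    have h0 := h 0 le_rfl
    rw [ln_zero, ln_zero] at h0
    rw [ln_zero, ln_zero, ln_zero]
    omega
  | succ i ih =>
    intro X Y h
    have h0 := h 0 (by omega)
    rw [ln_zero, ln_zero] at h0
    rw [ln_succ, ln_succ, ln_succ, show (X + Y) / 256 = X / 256 + Y / 256 by omega]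
    exact ih _ _ fun k hk => by
      have := h (k + 1) (by omega)
      rwa [ln_succ, ln_succ] at this

theorem mul_div256 (c X : ℕ) : c * X = c * (X % 256) + 256 * (c * (X / 256)) := by
  conv_lhs => rw [← Nat.mod_add_div X 256]
  ring

theorem ln_mul (c i : ℕ) : ∀ X : ℕ, (∀ k, k ≤ i → c * ln X k < 256) →
    ln (c * X) i = c * ln X i := by
  induction i with
  | zero =>
    intro X h
    have h0 := h 0 le_rfl
    rw [ln_zero] at h0
    rw [ln_zero, ln_zero, mul_div256 c X, Nat.add_mul_mod_self_left, Nat.mod_eq_of_lt h0]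
  | succ i ih =>
    intro X h
    have h0 := h 0 (by omega)
    rw [ln_zero] at h0
    have e : c * X / 256 = c * (X / 256) := by
      rw [mul_div256 c X, Nat.add_mul_div_left _ _ (by decide : 0 < 256), Nat.div_eq_of_lt h0, zero_add]
    rw [ln_succ, ln_succ, e]
    exact ih _ fun k hk => by
      have := h (k + 1) (by omega)
      rwa [ln_succ] at this

theorem ln_split (B R k i : ℕ) (hB : B < 2 ^ (8 * k)) :
    ln (B + 2 ^ (8 * k) * R) i = if i < k then ln B i else ln R (i - k) := by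
  split_ifs with h
  · unfold ln
    have e : 2 ^ (8 * k) = 2 ^ (8 * i) * (256 * 2 ^ (8 * (k - i - 1))) := by
      rw [show (256 : ℕ) = 2 ^ 8 from rfl, ← pow_add, ← pow_add]
      congr 1
      omega
    rw [e, mul_assoc, Nat.add_mul_div_left _ _ (Nat.two_pow_pos _), mul_assoc,
      Nat.add_mul_mod_self_left]
  · unfold ln
    have e : 2 ^ (8 * i) = 2 ^ (8 * k) * 2 ^ (8 * (i - k)) := by
      rw [← pow_add]
      congr 1
      omega
    rw [e, ← Nat.div_div_eq_div_mul, Nat.add_mul_div_left _ _ (Nat.two_pow_pos _),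
      Nat.div_eq_of_lt hB, zero_add]

theorem ln_testBit (X i k : ℕ) : (ln X i).testBit k = (decide (k < 8) && X.testBit (8 * i + k)) := by
  unfold ln
  rw [show (256 : ℕ) = 2 ^ 8 from rfl, Nat.testBit_mod_two_pow, Nat.testBit_div_two_pow]
  rw [add_comm k]

theorem ln_and (X Y i : ℕ) : ln (X &&& Y) i = ln X i &&& ln Y i := by
  apply Nat.eq_of_testBit_eq
  intro k
  rw [Nat.testBit_and, ln_testBit, ln_testBit, ln_testBit, Nat.testBit_and]
  cases decide (k < 8) <;> simp

theorem ln_shift (B sp sm i i' : ℕ) (e : i' + sm = i + sp) :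
    ln ((B <<< (8 * sm)) >>> (8 * sp)) i = ln B i' := by
  unfold ln
  rw [Nat.shiftLeft_eq, Nat.shiftRight_eq_div_pow, Nat.div_div_eq_div_mul, ← pow_add,
    show 8 * sp + 8 * i = 8 * i' + 8 * sm by omega, pow_add, Nat.mul_div_mul_right _ _ (Nat.two_pow_pos _)]

theorem and127 (x : ℕ) (h : x ≤ 127) : x &&& 127 = x := by
  have := Nat.and_two_pow_sub_one_eq_mod x 7
  rw [show (2 : ℕ) ^ 7 - 1 = 127 from rfl] at this
  rw [this]
  omega

theorem and128 (x : ℕ) (hx : x < 256) (h : x &&& 128 = 0) : x ≤ 127 := by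
  by_contra hc
  have h1 := congrArg (fun z => z.testBit 7) h
  simp only [Nat.testBit_and, Nat.zero_testBit] at h1
  have h2 : (128 : ℕ).testBit 7 = true := by decide
  rw [h2, Bool.and_true, Nat.testBit_eq_decide_div_mod_eq] at h1
  have h3 := of_decide_eq_false h1
  norm_num at h3
  omega

/-- Ones in the bytes whose base 3 digits satisfy `f`. -/
def mk (f : ℕ → ℕ → Bool) (n : ℕ) : ℕ :=
  Nat.rec (motive := fun _ => ℕ) 1
    (fun n B => cond (f n 0) B 0 +
      2 ^ (8 * 3 ^ n) * (cond (f n 1) B 0 + 2 ^ (8 * 3 ^ n) * cond (f n 2) B 0)) n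

theorem mk_succ (f : ℕ → ℕ → Bool) (n : ℕ) : mk f (n + 1) = cond (f n 0) (mk f n) 0 +
    2 ^ (8 * 3 ^ n) * (cond (f n 1) (mk f n) 0 + 2 ^ (8 * 3 ^ n) * cond (f n 2) (mk f n) 0) := rfl

theorem cond_lt (b : Bool) (B N : ℕ) (hN : 0 < N) (h : B < N) : cond b B 0 < N := by
  cases b
  · exact hN
  · exact h

theorem mk_lt (f : ℕ → ℕ → Bool) (n : ℕ) : mk f n < 2 ^ (8 * 3 ^ n) := by
  induction n with
  | zero =>
    show (1 : ℕ) < _
    norm_num
  | succ n ih =>
    rw [mk_succ]
    have hp := Nat.two_pow_pos (8 * 3 ^ n)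
    have h0 := cond_lt (f n 0) _ _ hp ih
    have h1 := cond_lt (f n 1) _ _ hp ih
    have h2 := cond_lt (f n 2) _ _ hp ih
    have e : 2 ^ (8 * 3 ^ (n + 1)) = 2 ^ (8 * 3 ^ n) * (2 ^ (8 * 3 ^ n) * 2 ^ (8 * 3 ^ n)) := by
      rw [← pow_add, ← pow_add]
      congr 1
      ring
    rw [e]
    generalize 2 ^ (8 * 3 ^ n) = N at *
    generalize cond (f n 0) (mk f n) 0 = a at *
    generalize cond (f n 1) (mk f n) 0 = b at *
    generalize cond (f n 2) (mk f n) 0 = c at *
    have h3 : b + N * c < N * N := by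
      have : N * c + N ≤ N * N := by
        rw [← Nat.mul_succ]
        exact Nat.mul_le_mul_left N h2
      omega
    have h4 : N * (b + N * c) + N ≤ N * (N * N) := by
      rw [← Nat.mul_succ]
      exact Nat.mul_le_mul_left N h3
    omega

theorem ln_cond (b : Bool) (B i : ℕ) : ln (cond b B 0) i = cond b (ln B i) 0 := by
  cases b
  · simp [ln]
  · rfl

theorem mk_ln_succ (f : ℕ → ℕ → Bool) (n i v : ℕ) (hi : i < 3 ^ n) (hv : v ≤ 2) :
    ln (mk f (n + 1)) (i + v * 3 ^ n) = cond (f n v) (ln (mk f n) i) 0 := by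
  have hp := Nat.two_pow_pos (8 * 3 ^ n)
  have hl := mk_lt f n
  rw [mk_succ, ln_split _ _ _ _ (cond_lt _ _ _ hp hl)]
  have hv' : v = 0 ∨ v = 1 ∨ v = 2 := by omega
  rcases hv' with rfl | rfl | rfl
  · rw [if_pos (by omega), ln_cond]
    simp
  · rw [if_neg (by omega), ln_split _ _ _ _ (cond_lt _ _ _ hp hl), if_pos (by omega), ln_cond]
    congr 2
    omega
  · rw [if_neg (by omega), ln_split _ _ _ _ (cond_lt _ _ _ hp hl), if_neg (by omega), ln_cond]
    congr 2
    omega

theorem ln_big (X n i : ℕ) (h : X < 2 ^ (8 * n)) (hi : n ≤ i) : ln X i = 0 := by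
  unfold ln
  rw [Nat.div_eq_of_lt (lt_of_lt_of_le h (Nat.pow_le_pow_right (by decide) (by omega)))]

theorem mk_zero_ln {f : ℕ → ℕ → Bool} : ln (mk f 0) 0 = 1 := by
  show 1 / 2 ^ (8 * 0) % 256 = 1
  norm_num

theorem mk_ln_le (f : ℕ → ℕ → Bool) (n : ℕ) : ∀ i, ln (mk f n) i ≤ 1 := by
  induction n with
  | zero =>
    intro i
    rcases Nat.eq_zero_or_pos i with rfl | hi
    · exact le_of_eq mk_zero_ln
    · rw [ln_big _ 1 i (by exact (by norm_num : (1 : ℕ) < 2 ^ (8 * 1))) hi]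
      omega
  | succ n ih =>
    intro i
    rcases Nat.lt_or_ge i (3 ^ (n + 1)) with hi | hi
    · have h1 : i % 3 ^ n < 3 ^ n := Nat.mod_lt _ (by positivity)
      have h2 : i / 3 ^ n ≤ 2 := by
        have : i / 3 ^ n < 3 := Nat.div_lt_of_lt_mul (by rw [pow_succ] at hi; omega)
        omega
      have h3 := mk_ln_succ f n _ _ h1 h2
      rw [show i % 3 ^ n + i / 3 ^ n * 3 ^ n = i by rw [mul_comm]; exact Nat.mod_add_div i _] at h3
      rw [h3]
      cases f n (i / 3 ^ n)
      · exact Nat.zero_le _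
      · exact ih _
    · rw [ln_big _ _ i (mk_lt f (n + 1)) hi]
      omega

/-- Number with the base 3 digits `p`. -/
def code (p : ℕ → ℕ) (n : ℕ) : ℕ :=
  Nat.rec (motive := fun _ => ℕ) 0 (fun n c => c + p n * 3 ^ n) n

theorem code_succ (p : ℕ → ℕ) (n : ℕ) : code p (n + 1) = code p n + p n * 3 ^ n := rfl

theorem code_lt (p : ℕ → ℕ) (n : ℕ) (h : ∀ k, k < n → p k ≤ 2) : code p n < 3 ^ n := by
  induction n with
  | zero =>
    show (0 : ℕ) < _
    norm_num
  | succ n ih =>
    rw [code_succ, pow_succ]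
    have h1 := ih fun k hk => h k (by omega)
    have h2 := Nat.mul_le_mul_right (3 ^ n) (h n (by omega))
    omega

theorem mk_code (f : ℕ → ℕ → Bool) (p : ℕ → ℕ) (n : ℕ) (h : ∀ k, k < n → p k ≤ 2 ∧ f k (p k) = true) :
    ln (mk f n) (code p n) = 1 := by
  induction n with
  | zero => exact mk_zero_ln
  | succ n ih =>
    rw [code_succ, mk_ln_succ f n _ _ (code_lt p n fun k hk => (h k (by omega)).1) (h n (by omega)).1,
      (h n (by omega)).2]
    exact ih fun k hk => h k (by omega)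

theorem mk_all (n : ℕ) : ∀ i, i < 3 ^ n → ln (mk (fun _ _ => true) n) i = 1 := by
  induction n with
  | zero =>
    intro i hi
    have : i = 0 := by simpa using hi
    subst this
    rfl
  | succ n ih =>
    intro i hi
    have h1 : i % 3 ^ n < 3 ^ n := Nat.mod_lt _ (by positivity)
    have h2 : i / 3 ^ n ≤ 2 := by
      have : i / 3 ^ n < 3 := Nat.div_lt_of_lt_mul (by rw [pow_succ] at hi; omega)
      omega
    have h3 := mk_ln_succ (fun _ _ => true) n _ _ h1 h2
    rw [show i % 3 ^ n + i / 3 ^ n * 3 ^ n = i by rw [mul_comm]; exact Nat.mod_add_div i _] at h3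
    rw [h3]
    exact ih _ h1

end PatGap.Side
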