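import Pool.Agent.H.MP_b28609_co.Gap.Side.Chk

/-!
# MP_b28609_co, gap theorem, side strip: the tables and their checks
-/

set_option autoImplicit false
set_option maxRecDepth 100000

namespace PatGap.Side

/-- Table of the layer 1. -/
def tab1 : ℕ := nx 0 tab0
/-- Table of the layer 2. -/
def tab2 : ℕ := nx 1 tab1
/-- Table of the layer 3. -/
def tab3 : ℕ := nx 2 tab2
/-- Table of the layer 4. -/
def tab4 : ℕ := nx 3 tab3
/-- Table of the layer 5. -/
def tab5 : ℕ := nx 4 tab4
/-- Table of the layer 6. -/
def tab6 : ℕ := nx 5 tab5
/-- Table of the layer 7. -/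
def tab7 : ℕ := nx 6 tab6
/-- Table of the layer 8. -/
def tab8 : ℕ := nx 7 tab7
/-- Table of the layer 9. -/
def tab9 : ℕ := nx 8 tab8
/-- Table of the layer 10. -/
def tab10 : ℕ := nx 9 tab9
/-- Table of the layer 11. -/
def tab11 : ℕ := tab0 + 11 * Ua

theorem c0 : chk 0 tab0 tab1 = true := by decide +kernel
theorem c1 : chk 1 tab1 tab2 = true := by decide +kernel
theorem c2 : chk 2 tab2 tab3 = true := by decide +kernel
theorem c3 : chk 3 tab3 tab4 = true := by decide +kernel
theorem c4 : chk 4 tab4 tab5 = true := by decide +kernel
theorem c5 : chk 5 tab5 tab6 = true := by decide +kernel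
theorem c6 : chk 6 tab6 tab7 = true := by decide +kernel
theorem c7 : chk 7 tab7 tab8 = true := by decide +kernel
theorem c8 : chk 8 tab8 tab9 = true := by decide +kernel
theorem c9 : chk 9 tab9 tab10 = true := by decide +kernel
theorem c10 : chk 10 tab10 tab11 = true := by decide +kernel
theorem h0 : hz tab0 = true := by decide +kernel
theorem h1 : hz tab1 = true := by decide +kernel
theorem h2 : hz tab2 = true := by decide +kernel
theorem h3 : hz tab3 = true := by decide +kernel
theorem h4 : hz tab4 = true := by decide +kernel
theorem h5 : hz tab5 = true := by decide +kernel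
theorem h6 : hz tab6 = true := by decide +kernel
theorem h7 : hz tab7 = true := by decide +kernel
theorem h8 : hz tab8 = true := by decide +kernel
theorem h9 : hz tab9 = true := by decide +kernel
theorem h10 : hz tab10 = true := by decide +kernel
theorem h11 : hz tab11 = true := by decide +kernel

/-- Digit 10 is at most 1. -/
def sq (t v : ℕ) : Bool := cond (Nat.beq t 10) (Nat.ble v 1) true

theorem b0 : ckU 0 tab0 (mk sq 11) 0 0 22 = true := by decide +kernel

end PatGap.Side
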